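import Mathlib

set_option autoImplicit false

/-!
# Counting the critical abscissas of a trinomial octic

`y ^ 8 + B(x) y ^ m + A(x)` and its derivative in `y` vanish at a point with `y ≠ 0` only if `A x > 0`, `B x ≠ 0` and
`(8 - m) ^ (8 - m) m ^ m B ^ 8 = 8 ^ 8 A ^ (8 - m)`.  The number of these `x` is bounded by Rolle's theorem for the function
`A / |B| ^ (8 / (8 - m))`: its derivative vanishes only at the zeros of `W = (8 - m) A' B - 8 A B'`.
-/

namespace Pool.Agent.L7h78.TO

open Polynomial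

/-- the Wronskian-like polynomial -/
noncomputable def W (m : ℕ) (A B : ℝ[X]) : ℝ[X] :=
  C (8 - m : ℝ) * derivative A * B - C 8 * A * derivative B

lemma natDegree_W (m : ℕ) (hm : 1 ≤ m) (hm7 : m ≤ 7) (A B : ℝ[X]) (hA : A.natDegree ≤ 8)
    (hB : B.natDegree ≤ 8 - m) : (W m A B).natDegree ≤ 14 - m := by
  have hA' : (derivative A).natDegree ≤ 7 := (natDegree_derivative_le A).trans (by omega)
  have hB' : (derivative B).natDegree ≤ 7 - m := (natDegree_derivative_le B).trans (by omega)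
  have h1 : (derivative A * B).natDegree ≤ 7 + (8 - m) := natDegree_mul_le_of_le hA' hB
  have h2 : (A * derivative B).natDegree ≤ 8 + (7 - m) := natDegree_mul_le_of_le hA hB'
  have hW : W m A B = C (8 - m : ℝ) * (derivative A * B) - C 8 * (A * derivative B) := by
    unfold W; ring
  have hdeg : (W m A B).natDegree ≤ 15 - m := by
    rw [hW]
    refine (natDegree_sub_le _ _).trans (max_le ?_ ?_)
    · exact (natDegree_C_mul_le _ _).trans (h1.trans (by omega))
    · exact (natDegree_C_mul_le _ _).trans (h2.trans (by omega))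
  have hc : (W m A B).coeff (15 - m) = 0 := by
    have e1 : (derivative A * B).coeff (15 - m) = (A.coeff 8 * 8) * B.coeff (8 - m) := by
      have := coeff_mul_add_eq_of_natDegree_le hA' hB
      rw [show 7 + (8 - m) = 15 - m by omega] at this
      rw [this, coeff_derivative]
      norm_num
    have e2 : (A * derivative B).coeff (15 - m) = A.coeff 8 * (B.coeff (8 - m) * (8 - m : ℝ)) := by
      have := coeff_mul_add_eq_of_natDegree_le hA hB'
      rw [show 8 + (7 - m) = 15 - m by omega] at this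
      rw [this, coeff_derivative, show 7 - m + 1 = 8 - m by omega]
      congr 2
      rw [Nat.cast_sub (by omega)]
      push_cast
      ring
    rw [hW, coeff_sub, coeff_C_mul, coeff_C_mul, e1, e2]
    ring
  by_contra hcon
  have heq : (W m A B).natDegree = 15 - m := by omega
  have hne : W m A B ≠ 0 := by
    intro h0
    rw [h0] at heq
    simp at heq
    omega
  have hlc : (W m A B).leadingCoeff ≠ 0 := leadingCoeff_ne_zero.2 hne
  unfold leadingCoeff at hlc
  rw [heq] at hlc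
  exact hlc hc

/-- Rolle. -/
lemma rolle (m : ℕ) (hm : 1 ≤ m) (hm7 : m ≤ 7) (A B : ℝ[X]) (x x' K : ℝ) (hx : x < x')
    (hA : 0 < A.eval x) (hA' : 0 < A.eval x')
    (h1 : K * B.eval x ^ 8 = A.eval x ^ (8 - m)) (h2 : K * B.eval x' ^ 8 = A.eval x' ^ (8 - m))
    (hB : ∀ t ∈ Set.Icc x x', B.eval t ≠ 0) : ∃ t ∈ Set.Ioo x x', (W m A B).eval t = 0 := by
  set d : ℝ := (8 : ℝ) - m with hd
  have hm7' : (m : ℝ) ≤ 7 := by exact_mod_cast hm7
  have hd0 : 0 < d := by rw [hd]; linarith
  have hdN : ((8 - m : ℕ) : ℝ) = d := by rw [Nat.cast_sub (by omega)]; push_cast; rfl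
  set f : ℝ → ℝ := fun t => A.eval t * ((B.eval t) ^ 2) ^ (-(4 / d)) with hf
  have hpos : ∀ t ∈ Set.Icc x x', 0 < (B.eval t) ^ 2 := fun t ht => by
    have := hB t ht
    positivity
  have hfx : ∀ t ∈ Set.Icc x x', 0 < A.eval t → K * B.eval t ^ 8 = A.eval t ^ (8 - m) →
      0 < f t ∧ f t ^ (8 - m) = K := by
    intro t ht hAt hKt
    have hb := hpos t ht
    refine ⟨by simp only [hf]; positivity, ?_⟩
    simp only [hf]
    rw [mul_pow, ← Real.rpow_natCast (((B.eval t) ^ 2) ^ (-(4 / d))) (8 - m), ← Real.rpow_mul hb.le,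
      hdN, ← hKt]
    have e : -(4 / d) * d = -((4 : ℕ) : ℝ) := by
      field_simp
      norm_num
    rw [e, Real.rpow_neg hb.le, Real.rpow_natCast]
    have : B.eval t ≠ 0 := hB t ht
    field_simp
  have hfe : f x = f x' := by
    obtain ⟨p1, q1⟩ := hfx x ⟨le_refl _, hx.le⟩ hA h1
    obtain ⟨p2, q2⟩ := hfx x' ⟨hx.le, le_refl _⟩ hA' h2
    exact (pow_left_inj₀ p1.le p2.le (by omega)).1 (q1.trans q2.symm)
  set f' : ℝ → ℝ := fun t => (derivative A).eval t * ((B.eval t) ^ 2) ^ (-(4 / d)) +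
    A.eval t * ((2 * B.eval t * (derivative B).eval t) * (-(4 / d)) *
      ((B.eval t) ^ 2) ^ (-(4 / d) - 1)) with hf'
  have hder : ∀ t ∈ Set.Icc x x', HasDerivAt f (f' t) t := by
    intro t ht
    have hb := hpos t ht
    have d1 : HasDerivAt (fun t => A.eval t) ((derivative A).eval t) t := A.hasDerivAt t
    have d2 : HasDerivAt (fun t => B.eval t ^ 2) (2 * B.eval t * (derivative B).eval t) t := by
      have := (B.hasDerivAt t).fun_pow 2
      simpa using this
    have d3 := d2.rpow_const (p := -(4 / d)) (Or.inl hb.ne')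
    exact d1.mul d3
  obtain ⟨c, hc, hc0⟩ := exists_hasDerivAt_eq_zero hx
    (fun t ht => (hder t ht).continuousAt.continuousWithinAt) hfe
    (fun t ht => hder t ⟨ht.1.le, ht.2.le⟩)
  refine ⟨c, hc, ?_⟩
  have hcI : c ∈ Set.Icc x x' := ⟨hc.1.le, hc.2.le⟩
  have hb := hpos c hcI
  have hbn := hB c hcI
  have hsplit : ((B.eval c) ^ 2) ^ (-(4 / d)) = ((B.eval c) ^ 2) ^ (-(4 / d) - 1) * (B.eval c) ^ 2 := by
    rw [← Real.rpow_add_one hb.ne']
    congr 1
    ring
  simp only [hf'] at hc0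
  rw [hsplit] at hc0
  have hq : 0 < ((B.eval c) ^ 2) ^ (-(4 / d) - 1) := by positivity
  have hWe : (W m A B).eval c = d * (derivative A).eval c * B.eval c -
      8 * A.eval c * (derivative B).eval c := by
    unfold W
    simp [hd]
  have key : ((B.eval c) ^ 2) ^ (-(4 / d) - 1) * B.eval c * (W m A B).eval c = 0 := by
    rw [hWe]
    have : ((B.eval c) ^ 2) ^ (-(4 / d) - 1) * B.eval c *
        (d * (derivative A).eval c * B.eval c - 8 * A.eval c * (derivative B).eval c) =
        d * ((derivative A).eval c * (((B.eval c) ^ 2) ^ (-(4 / d) - 1) * (B.eval c) ^ 2) +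
        A.eval c * ((2 * B.eval c * (derivative B).eval c) * (-(4 / d)) *
          ((B.eval c) ^ 2) ^ (-(4 / d) - 1))) := by
      field_simp
      ring
    rw [this, hc0, mul_zero]
  rcases mul_eq_zero.1 key with h | h
  · exact absurd h (mul_ne_zero hq.ne' hbn)
  · exact h

/-- the number of roots in an open interval -/
noncomputable def cnt (V : ℝ[X]) (x x' : ℝ) : ℕ := (V.roots.filter (fun t => x < t ∧ t < x')).card

lemma count_aux (V : ℝ[X]) (r : ℕ) (S : Finset ℝ) :
    (∀ x ∈ S, ∀ x' ∈ S, x < x' → r ≤ cnt V x x') → ∀ M : ℝ, (∀ x ∈ S, x < M) →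
    (∀ x ∈ S, r ≤ cnt V x M) → r * S.card ≤ (V.roots.filter (fun t => t < M)).card := by
  induction S using Finset.induction_on_max with
  | empty => intro _ M _ _; simp
  | insert M' S hM' ih =>
    intro hp M hM hr
    have hn : M' ∉ S := fun h => lt_irrefl _ (hM' M' h)
    have h1 := ih (fun x hx x' hx' => hp x (Finset.mem_insert_of_mem hx) x' (Finset.mem_insert_of_mem hx'))
      M' hM' (fun x hx => hp x (Finset.mem_insert_of_mem hx) M' (Finset.mem_insert_self _ _) (hM' x hx))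
    have h2 := hr M' (Finset.mem_insert_self _ _)
    have h3 := hM M' (Finset.mem_insert_self _ _)
    rw [Finset.card_insert_of_notMem hn, mul_add, mul_one]
    have hle : V.roots.filter (fun t => t < M') + V.roots.filter (fun t => M' < t ∧ t < M) ≤
        V.roots.filter (fun t => t < M) := by
      rw [Multiset.filter_add_filter]
      have e : V.roots.filter (fun t => t < M' ∧ (M' < t ∧ t < M)) = 0 := by
        rw [Multiset.filter_eq_nil]
        rintro t _ ⟨a, b, _⟩
        exact lt_asymm a b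
      rw [e, add_zero]
      apply Multiset.monotone_filter_right
      rintro t (h | h)
      · exact h.trans h3
      · exact h.2
    calc r * S.card + r ≤ _ + _ := add_le_add h1 h2
      _ = (V.roots.filter (fun t => t < M') + V.roots.filter (fun t => M' < t ∧ t < M)).card := by
          rw [Multiset.card_add]; rfl
      _ ≤ _ := Multiset.card_le_card hle

lemma count (V : ℝ[X]) (r : ℕ) (S : Finset ℝ)
    (h : ∀ x ∈ S, ∀ x' ∈ S, x < x' → r ≤ cnt V x x') : r * S.card ≤ V.natDegree + r := by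
  rcases S.eq_empty_or_nonempty with h0 | h0
  · subst h0
    simp
  have hM := S.max'_mem h0
  set M := S.max' h0
  have hlt : ∀ x ∈ S.erase M, x < M := fun x hx =>
    lt_of_le_of_ne (S.le_max' x (Finset.mem_of_mem_erase hx)) (Finset.ne_of_mem_erase hx)
  have h1 := count_aux V r (S.erase M)
    (fun x hx x' hx' => h x (Finset.mem_of_mem_erase hx) x' (Finset.mem_of_mem_erase hx')) M hlt
    (fun x hx => h x (Finset.mem_of_mem_erase hx) M hM (hlt x hx))
  have h2 : (V.roots.filter (fun t => t < M)).card ≤ V.natDegree :=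
    (Multiset.card_le_card (Multiset.filter_le _ _)).trans (card_roots' V)
  have h3 : S.card = (S.erase M).card + 1 := (Finset.card_erase_add_one hM).symm
  rw [h3, mul_add, mul_one]
  omega

lemma one_le_cnt (V : ℝ[X]) (hV : V ≠ 0) (x x' t : ℝ) (h1 : x < t) (h2 : t < x')
    (ht : V.eval t = 0) : 1 ≤ cnt V x x' := by
  unfold cnt
  rw [Nat.one_le_iff_ne_zero, Ne, Multiset.card_eq_zero]
  intro h
  have : t ∈ V.roots.filter (fun t => x < t ∧ t < x') :=
    Multiset.mem_filter.2 ⟨(mem_roots hV).2 ht, h1, h2⟩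
  rw [h] at this
  exact Multiset.notMem_zero _ this

lemma cnt_mul (U V : ℝ[X]) (h : U * V ≠ 0) (x x' : ℝ) :
    cnt (U * V) x x' = cnt U x x' + cnt V x x' := by
  unfold cnt
  rw [roots_mul h, Multiset.filter_add, Multiset.card_add]

lemma two_le_cnt (B : ℝ[X]) (x x' t : ℝ) (h1 : x < t) (h2 : t < x')
    (ht : B.eval t = 0) (hx : B.eval x < 0) (hx' : B.eval x' < 0) : 2 ≤ cnt B x x' := by
  have hB : B ≠ 0 := by
    intro h
    rw [h] at hx
    simp at hx
  obtain ⟨B1, hB1⟩ := dvd_iff_isRoot.2 ht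
  have e1 : 0 < B1.eval x := by
    rw [hB1, eval_mul, eval_sub, eval_X, eval_C] at hx
    nlinarith
  have e2 : B1.eval x' < 0 := by
    rw [hB1, eval_mul, eval_sub, eval_X, eval_C] at hx'
    nlinarith
  have hlt : x < x' := h1.trans h2
  obtain ⟨s, hs, hs0⟩ := intermediate_value_Ioo' hlt.le (B1.continuous.continuousOn)
    (Set.mem_Ioo.2 ⟨e2, e1⟩)
  have hne : (X - C t) * B1 ≠ 0 := hB1 ▸ hB
  rw [hB1, cnt_mul _ _ hne]
  have a1 := one_le_cnt (X - C t) (X_sub_C_ne_zero t) x x' t h1 h2 (by simp)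
  have a2 := one_le_cnt B1 (right_ne_zero_of_mul hne) x x' s hs.1 hs.2 hs0
  omega

/-- `m` arbitrary: at most `23 - 2 m` critical abscissas. -/
theorem cnt_odd (m : ℕ) (hm : 1 ≤ m) (hm7 : m ≤ 7) (A B : ℝ[X]) (hA : A.natDegree ≤ 8)
    (hB : B.natDegree ≤ 8 - m) (hW : W m A B ≠ 0) (S : Finset ℝ)
    (hS : ∀ x ∈ S, 0 < A.eval x ∧ B.eval x ≠ 0 ∧
      ((8 - m : ℕ) : ℝ) ^ (8 - m) * (m : ℝ) ^ m * B.eval x ^ 8 = 8 ^ 8 * A.eval x ^ (8 - m)) :
    S.card ≤ 23 - 2 * m := by
  rcases S.eq_empty_or_nonempty with h0 | ⟨x0, hx0⟩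
  · subst h0
    simp
  have hB0 : B ≠ 0 := by
    intro h
    exact (hS x0 hx0).2.1 (by rw [h]; simp)
  have hV : W m A B * B ≠ 0 := mul_ne_zero hW hB0
  have h := count (W m A B * B) 1 S (fun x hx x' hx' hxx => by
    obtain ⟨a1, b1, c1⟩ := hS x hx
    obtain ⟨a2, b2, c2⟩ := hS x' hx'
    rw [cnt_mul _ _ hV]
    by_cases hr : ∃ t ∈ Set.Icc x x', B.eval t = 0
    · obtain ⟨t, ht, ht0⟩ := hr
      have t1 : x < t := lt_of_le_of_ne ht.1 (fun e => b1 (by rw [e]; exact ht0))
      have t2 : t < x' := lt_of_le_of_ne ht.2 (fun e => b2 (by rw [← e]; exact ht0))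
      have := one_le_cnt B hB0 x x' t t1 t2 ht0
      omega
    · push Not at hr
      obtain ⟨t, ht, ht0⟩ := rolle m hm hm7 A B x x'
        (((8 - m : ℕ) : ℝ) ^ (8 - m) * (m : ℝ) ^ m / 8 ^ 8) hxx a1 a2
        (by rw [div_mul_eq_mul_div, c1]; field_simp) (by rw [div_mul_eq_mul_div, c2]; field_simp) hr
      have := one_le_cnt (W m A B) hW x x' t ht.1 ht.2 ht0
      omega)
  have hdeg : (W m A B * B).natDegree ≤ (14 - m) + (8 - m) :=
    natDegree_mul_le_of_le (natDegree_W m hm hm7 A B hA hB) hB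
  omega

/-- `B < 0` at the abscissas (the case `m` even): `2 S.card ≤ 38 - 3 m`. -/
theorem cnt_even (m : ℕ) (hm : 1 ≤ m) (hm7 : m ≤ 7) (A B : ℝ[X]) (hA : A.natDegree ≤ 8)
    (hB : B.natDegree ≤ 8 - m) (hW : W m A B ≠ 0) (S : Finset ℝ)
    (hS : ∀ x ∈ S, 0 < A.eval x ∧ B.eval x < 0 ∧
      ((8 - m : ℕ) : ℝ) ^ (8 - m) * (m : ℝ) ^ m * B.eval x ^ 8 = 8 ^ 8 * A.eval x ^ (8 - m)) :
    2 * S.card ≤ 38 - 3 * m := by
  rcases S.eq_empty_or_nonempty with h0 | ⟨x0, hx0⟩
  · subst h0
    simp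
  have hB0 : B ≠ 0 := by
    intro h
    have := (hS x0 hx0).2.1
    rw [h] at this
    simp at this
  have hWW : W m A B * W m A B ≠ 0 := mul_ne_zero hW hW
  have hV : W m A B * W m A B * B ≠ 0 := mul_ne_zero hWW hB0
  have h := count (W m A B * W m A B * B) 2 S (fun x hx x' hx' hxx => by
    obtain ⟨a1, b1, c1⟩ := hS x hx
    obtain ⟨a2, b2, c2⟩ := hS x' hx'
    rw [cnt_mul _ _ hV, cnt_mul _ _ hWW]
    by_cases hr : ∃ t ∈ Set.Icc x x', B.eval t = 0
    · obtain ⟨t, ht, ht0⟩ := hr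
      have t1 : x < t := lt_of_le_of_ne ht.1 (fun e => b1.ne (by rw [e]; exact ht0))
      have t2 : t < x' := lt_of_le_of_ne ht.2 (fun e => b2.ne (by rw [← e]; exact ht0))
      have := two_le_cnt B x x' t t1 t2 ht0 b1 b2
      omega
    · push Not at hr
      obtain ⟨t, ht, ht0⟩ := rolle m hm hm7 A B x x'
        (((8 - m : ℕ) : ℝ) ^ (8 - m) * (m : ℝ) ^ m / 8 ^ 8) hxx a1 a2
        (by rw [div_mul_eq_mul_div, c1]; field_simp) (by rw [div_mul_eq_mul_div, c2]; field_simp) hr
      have := one_le_cnt (W m A B) hW x x' t ht.1 ht.2 ht0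
      omega)
  have hdW := natDegree_W m hm hm7 A B hA hB
  have hdeg : (W m A B * W m A B * B).natDegree ≤ ((14 - m) + (14 - m)) + (8 - m) :=
    natDegree_mul_le_of_le (natDegree_mul_le_of_le hdW hdW) hB
  omega

/-- At a critical point with `y ≠ 0` the polynomial `W` is `(8 - m) B` times the derivative of the
trinomial in the direction of `x`. -/
theorem W_eval (m : ℕ) (hm : 1 ≤ m) (A B : ℝ[X]) (x y : ℝ)
    (h1 : y ^ 8 + B.eval x * y ^ m + A.eval x = 0)
    (h2 : 8 * y ^ 7 + m * B.eval x * y ^ (m - 1) = 0) :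
    m * (W m A B).eval x = m * ((8 - m) * B.eval x *
      ((derivative B).eval x * y ^ m + (derivative A).eval x)) := by
  have hWe : (W m A B).eval x = (8 - m) * (derivative A).eval x * B.eval x -
      8 * A.eval x * (derivative B).eval x := by
    unfold W
    simp
  have e3 : (y : ℝ) ^ m = y * y ^ (m - 1) := by
    rw [← pow_succ', Nat.sub_add_cancel hm]
  have e4 : 8 * y ^ 8 + m * B.eval x * y ^ m = 0 := by
    rw [e3]
    linear_combination y * h2
  rw [hWe]
  linear_combination (-8 * m * (derivative B).eval x) * h1 + ((derivative B).eval x * (m : ℝ)) * e4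

end Pool.Agent.L7h78.TO
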