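import Pool.Agent.L7h78.TO.Cnt

set_option autoImplicit false

/-!
# Critical points of the trinomial `y ^ 8 + B(x) y ^ m + A(x)` with `y ≠ 0`, and lines without real points
-/

namespace Pool.Agent.L7h78.TO

open Polynomial Filter Topology

/-- The relations at a critical point with `y ≠ 0`. -/
theorem crit_rel (m : ℕ) (hm : 1 ≤ m) (a b y : ℝ)
    (h1 : y ^ 8 + b * y ^ m + a = 0) (h2 : 8 * y ^ 7 + m * b * y ^ (m - 1) = 0) :
    m * a = (8 - m) * y ^ 8 ∧ m * b * y ^ m = -8 * y ^ 8 := by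
  have e3 : (y : ℝ) ^ m = y * y ^ (m - 1) := by
    rw [← pow_succ', Nat.sub_add_cancel hm]
  have e4 : 8 * y ^ 8 + m * b * y ^ m = 0 := by
    rw [e3]
    linear_combination y * h2
  constructor
  · linear_combination (m : ℝ) * h1 - e4
  · linear_combination e4

theorem crit_pos (m : ℕ) (hm : 1 ≤ m) (hm7 : m ≤ 7) (a b y : ℝ) (hy : y ≠ 0)
    (h1 : y ^ 8 + b * y ^ m + a = 0) (h2 : 8 * y ^ 7 + m * b * y ^ (m - 1) = 0) :
    0 < a ∧ b ≠ 0 ∧ (Even m → b < 0) ∧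
      ((8 - m : ℕ) : ℝ) ^ (8 - m) * (m : ℝ) ^ m * b ^ 8 = 8 ^ 8 * a ^ (8 - m) := by
  obtain ⟨r1, r2⟩ := crit_rel m hm a b y h1 h2
  have hm0 : (0 : ℝ) < m := by exact_mod_cast hm
  have hm7' : (m : ℝ) ≤ 7 := by exact_mod_cast hm7
  have hu : 0 < y ^ 8 := by positivity
  have ha : 0 < a := by
    have : 0 < (m : ℝ) * a := by rw [r1]; exact mul_pos (by linarith) hu
    exact (mul_pos_iff_of_pos_left hm0).1 this
  have hb : b ≠ 0 := by
    intro h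
    rw [h] at r2
    nlinarith
  refine ⟨ha, hb, ?_, ?_⟩
  · intro he
    have hym : 0 < y ^ m := he.pow_pos hy
    by_contra hcon
    push Not at hcon
    have : 0 ≤ (m : ℝ) * b * y ^ m := by positivity
    nlinarith
  · have hd : ((8 - m : ℕ) : ℝ) = 8 - m := by rw [Nat.cast_sub (by omega)]; push_cast; rfl
    have hm8 : (m : ℝ) ^ 8 = (m : ℝ) ^ (8 - m) * (m : ℝ) ^ m := by
      rw [← pow_add]; congr 1; omega
    have hu8 : (y ^ 8) ^ 8 = (y ^ 8) ^ (8 - m) * (y ^ 8) ^ m := by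
      rw [← pow_add]; congr 1; omega
    have hne : (m : ℝ) ^ 8 * (y ^ 8) ^ m ≠ 0 := by positivity
    apply mul_right_cancel₀ hne
    have k1 : (m * b * y ^ m) ^ 8 = (m : ℝ) ^ 8 * (y ^ 8) ^ m * b ^ 8 := by
      rw [mul_pow, mul_pow, ← pow_mul, ← pow_mul, mul_comm m 8]
      ring
    have k2 : (m * a) ^ (8 - m) = (m : ℝ) ^ (8 - m) * a ^ (8 - m) := mul_pow _ _ _
    calc ((8 - m : ℕ) : ℝ) ^ (8 - m) * (m : ℝ) ^ m * b ^ 8 * ((m : ℝ) ^ 8 * (y ^ 8) ^ m)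
        = ((8 - m : ℕ) : ℝ) ^ (8 - m) * (m : ℝ) ^ m * (m * b * y ^ m) ^ 8 := by rw [k1]; ring
      _ = ((8 - m : ℕ) : ℝ) ^ (8 - m) * (m : ℝ) ^ m * (8 ^ 8 * (y ^ 8) ^ 8) := by
          rw [r2]; ring
      _ = 8 ^ 8 * (((8 - m : ℕ) : ℝ) ^ (8 - m) * (y ^ 8) ^ (8 - m)) * ((m : ℝ) ^ m * (y ^ 8) ^ m) := by
          rw [hu8]; ring
      _ = 8 ^ 8 * (m * a) ^ (8 - m) * ((m : ℝ) ^ m * (y ^ 8) ^ m) := by
          rw [r1, ← hd, mul_pow]
      _ = 8 ^ 8 * a ^ (8 - m) * ((m : ℝ) ^ 8 * (y ^ 8) ^ m) := by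
          rw [k2, hm8]; ring

/-- Two critical points over the same abscissa are equal or opposite; equal for odd `m`. -/
theorem crit_unique (m : ℕ) (hm : 1 ≤ m) (hm7 : m ≤ 7) (a b y y' : ℝ) (hy : y ≠ 0) (hy' : y' ≠ 0)
    (h1 : y ^ 8 + b * y ^ m + a = 0) (h2 : 8 * y ^ 7 + m * b * y ^ (m - 1) = 0)
    (h1' : y' ^ 8 + b * y' ^ m + a = 0) (h2' : 8 * y' ^ 7 + m * b * y' ^ (m - 1) = 0) :
    y' = y ∨ (y' = -y ∧ Even m) := by
  obtain ⟨r1, r2⟩ := crit_rel m hm a b y h1 h2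
  obtain ⟨s1, s2⟩ := crit_rel m hm a b y' h1' h2'
  have hm0 : (0 : ℝ) < m := by exact_mod_cast hm
  have hm7' : (m : ℝ) ≤ 7 := by exact_mod_cast hm7
  have h8 : y' ^ 8 = y ^ 8 := by
    have : (8 - m : ℝ) * y' ^ 8 = (8 - m) * y ^ 8 := by rw [← s1, r1]
    exact mul_left_cancel₀ (by linarith) this
  have habs : |y'| = |y| := by
    have : |y'| ^ 8 = |y| ^ 8 := by
      rw [Even.pow_abs (by decide), Even.pow_abs (by decide), h8]
    exact (pow_left_inj₀ (abs_nonneg _) (abs_nonneg _) (by norm_num)).1 this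
  rcases abs_eq_abs.1 habs with h | h
  · exact Or.inl h
  · right
    refine ⟨h, ?_⟩
    by_contra hne
    have ho : Odd m := Nat.not_even_iff_odd.1 hne
    rw [h, ho.neg_pow] at s2
    have hu : 0 < y ^ 8 := by positivity
    rw [Even.neg_pow (by decide : Even 8)] at s2
    nlinarith

/-- weighted arithmetic and geometric mean -/
lemma amgm (m : ℕ) (hm : 1 ≤ m) (hm7 : m ≤ 7) (u v : ℝ) (hu : 0 ≤ u) (hv : 0 ≤ v) :
    8 ^ 8 * (u ^ m * v ^ (8 - m)) ≤ ((8 - m : ℕ) : ℝ) ^ (8 - m) * (m : ℝ) ^ m * (u + v) ^ 8 := by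
  have hm0 : (0 : ℝ) < m := by exact_mod_cast hm
  have hd0 : (0 : ℝ) < ((8 - m : ℕ) : ℝ) := by
    have : 0 < 8 - m := by omega
    exact_mod_cast this
  have hsum : (m : ℝ) + ((8 - m : ℕ) : ℝ) = 8 := by
    rw [Nat.cast_sub (by omega)]; push_cast; ring
  have h := Real.geom_mean_le_arith_mean2_weighted (w₁ := m / 8) (w₂ := ((8 - m : ℕ) : ℝ) / 8)
    (p₁ := 8 * u / m) (p₂ := 8 * v / ((8 - m : ℕ) : ℝ)) (by positivity) (by positivity)
    (by positivity) (by positivity) (by rw [← add_div, hsum]; norm_num)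
  have e1 : (m : ℝ) / 8 * (8 * u / m) + ((8 - m : ℕ) : ℝ) / 8 * (8 * v / ((8 - m : ℕ) : ℝ)) =
      u + v := by
    field_simp
  rw [e1] at h
  have h8 := pow_le_pow_left₀ (by positivity) h 8
  have e2 : ((8 * u / m) ^ ((m : ℝ) / 8) * (8 * v / ((8 - m : ℕ) : ℝ)) ^ (((8 - m : ℕ) : ℝ) / 8)) ^ 8
      = (8 * u / m) ^ m * (8 * v / ((8 - m : ℕ) : ℝ)) ^ (8 - m) := by
    rw [mul_pow, ← Real.rpow_natCast _ 8, ← Real.rpow_mul (by positivity),
      ← Real.rpow_natCast _ 8, ← Real.rpow_mul (by positivity)]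
    rw [show (m : ℝ) / 8 * ((8 : ℕ) : ℝ) = (m : ℝ) by push_cast; ring,
      show ((8 - m : ℕ) : ℝ) / 8 * ((8 : ℕ) : ℝ) = ((8 - m : ℕ) : ℝ) by push_cast; ring,
      Real.rpow_natCast, Real.rpow_natCast]
  rw [e2, div_pow, div_pow, mul_pow, mul_pow] at h8
  have h88 : (8 : ℝ) ^ 8 = 8 ^ m * 8 ^ (8 - m) := by
    rw [← pow_add]; congr 1; omega
  rw [h88]
  have hK : 0 < ((8 - m : ℕ) : ℝ) ^ (8 - m) * (m : ℝ) ^ m := by positivity
  calc (8 : ℝ) ^ m * 8 ^ (8 - m) * (u ^ m * v ^ (8 - m))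
      = ((8 - m : ℕ) : ℝ) ^ (8 - m) * (m : ℝ) ^ m * (8 ^ m * u ^ m / (m : ℝ) ^ m *
        (8 ^ (8 - m) * v ^ (8 - m) / ((8 - m : ℕ) : ℝ) ^ (8 - m))) := by
        field_simp
    _ ≤ _ := mul_le_mul_of_nonneg_left h8 hK.le

/-- If the discriminant is positive there is no real point. -/
lemma no_zero (m : ℕ) (hm : 1 ≤ m) (hm7 : m ≤ 7) (a b : ℝ) (ha : 0 < a)
    (h : ((8 - m : ℕ) : ℝ) ^ (8 - m) * (m : ℝ) ^ m * b ^ 8 < 8 ^ 8 * a ^ (8 - m)) (t : ℝ) :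
    t ^ 8 + b * t ^ m + a ≠ 0 := by
  intro h0
  by_cases ht : t = 0
  · subst ht
    rw [zero_pow (by norm_num), zero_pow (by omega)] at h0
    linarith
  have hu : 0 < t ^ 8 := by positivity
  have h1 := amgm m hm hm7 (t ^ 8) a hu.le ha.le
  have h2 : (t ^ 8 + a) ^ 8 = b ^ 8 * (t ^ 8) ^ m := by
    have : t ^ 8 + a = -(b * t ^ m) := by linarith
    rw [this, Even.neg_pow (by decide), mul_pow, ← pow_mul, ← pow_mul, mul_comm m 8]
  rw [h2] at h1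
  have h3 : 0 < (t ^ 8) ^ m := by positivity
  have h4 : ((8 - m : ℕ) : ℝ) ^ (8 - m) * (m : ℝ) ^ m * b ^ 8 * (t ^ 8) ^ m <
      8 ^ 8 * a ^ (8 - m) * (t ^ 8) ^ m := mul_lt_mul_of_pos_right h h3
  nlinarith

/-- GAP.  Near a critical abscissa with `W ≠ 0` there is a vertical line without real points. -/
theorem gap (m : ℕ) (hm : 1 ≤ m) (hm7 : m ≤ 7) (A B : ℝ[X]) (x : ℝ) (ha : 0 < A.eval x)
    (hb : B.eval x ≠ 0)
    (h : ((8 - m : ℕ) : ℝ) ^ (8 - m) * (m : ℝ) ^ m * B.eval x ^ 8 = 8 ^ 8 * A.eval x ^ (8 - m))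
    (hW : (W m A B).eval x ≠ 0) :
    ∃ x' : ℝ, ∀ t : ℝ, t ^ 8 + B.eval x' * t ^ m + A.eval x' ≠ 0 := by
  set K : ℝ := ((8 - m : ℕ) : ℝ) ^ (8 - m) * (m : ℝ) ^ m with hK
  have hm0 : (0 : ℝ) < m := by exact_mod_cast hm
  have hd0 : (0 : ℝ) < ((8 - m : ℕ) : ℝ) := by
    have : 0 < 8 - m := by omega
    exact_mod_cast this
  have hK0 : 0 < K := by rw [hK]; positivity
  have hd : ((8 - m : ℕ) : ℝ) = 8 - m := by rw [Nat.cast_sub (by omega)]; push_cast; rfl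
  set H : ℝ[X] := C (8 ^ 8) * A ^ (8 - m) - C K * B ^ 8 with hH
  have hHe : ∀ t, H.eval t = 8 ^ 8 * A.eval t ^ (8 - m) - K * B.eval t ^ 8 := fun t => by
    rw [hH]; simp
  have hH0 : H.eval x = 0 := by rw [hHe, h, sub_self]
  have hWe : (W m A B).eval x = (8 - m) * (derivative A).eval x * B.eval x -
      8 * A.eval x * (derivative B).eval x := by
    unfold W
    simp
  have hHd : (derivative H).eval x ≠ 0 := by
    have e : (derivative H).eval x = 8 ^ 8 * ((8 - m) * A.eval x ^ (8 - m - 1) *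
        (derivative A).eval x) - K * (8 * B.eval x ^ 7 * (derivative B).eval x) := by
      rw [hH, derivative_sub, derivative_C_mul, derivative_C_mul, derivative_pow, derivative_pow]
      simp only [eval_sub, eval_mul, eval_C, eval_pow, hd]
      norm_num
    have e' : A.eval x * B.eval x * (derivative H).eval x = K * B.eval x ^ 8 * (W m A B).eval x := by
      have hp : A.eval x ^ (8 - m) = A.eval x * A.eval x ^ (8 - m - 1) := by
        rw [← pow_succ']; congr 1; omega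
      rw [e, hWe]
      rw [hp] at h
      linear_combination (-(8 - m) * (derivative A).eval x * B.eval x) * h
    intro h0
    rw [h0, mul_zero] at e'
    have : K * B.eval x ^ 8 * (W m A B).eval x ≠ 0 := by positivity
    exact this e'.symm
  have hnot : ¬ IsLocalMax (fun t => H.eval t) x := by
    intro hl
    exact hHd (hl.hasDerivAt_eq_zero (H.hasDerivAt x))
  have hfreq : ∃ᶠ t in 𝓝 x, 0 < H.eval t := by
    intro hcon
    apply hnot
    filter_upwards [hcon] with t ht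
    rw [hH0]
    exact not_lt.1 ht
  have hev : ∀ᶠ t in 𝓝 x, 0 < A.eval t := A.continuous.continuousAt.eventually (lt_mem_nhds ha)
  obtain ⟨x', h1, h2⟩ := (hfreq.and_eventually hev).exists
  refine ⟨x', no_zero m hm hm7 _ _ h2 ?_⟩
  rw [hHe] at h1
  linarith

end Pool.Agent.L7h78.TO
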