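import Pool.Agent.L7h69.TO.Main
import Pool.Agent.L7h78.TO.Gap

set_option autoImplicit false

/-!
# Trinomial octics: bounds for the number of critical abscissas, and the count of the compact pieces
-/

namespace Pool.Agent.L7h78.TO

open Pool.Agent.L7h17.OC Pool.Agent.L7h69.TO

open Polynomial in
/-- what a critical point with `y ≠ 0` says about the normalised polynomials -/
theorem cri (m : ℕ) (hm : 1 ≤ m) (hm7 : m ≤ 7) (A B : ℝ[X]) (c x y : ℝ) (hc : c ≠ 0) (hy : y ≠ 0)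
    (h : Cri m A B c x y) (hR : A.derivative.eval x + B.derivative.eval x * y ^ m ≠ 0) :
    0 < (C c⁻¹ * A).eval x ∧ (C c⁻¹ * B).eval x ≠ 0 ∧ (Even m → (C c⁻¹ * B).eval x < 0) ∧
      ((8 - m : ℕ) : ℝ) ^ (8 - m) * (m : ℝ) ^ m * (C c⁻¹ * B).eval x ^ 8 =
        8 ^ 8 * (C c⁻¹ * A).eval x ^ (8 - m) ∧ (W m (C c⁻¹ * A) (C c⁻¹ * B)).eval x ≠ 0 := by
  obtain ⟨h1, h2⟩ := h
  have e1 : y ^ 8 + (C c⁻¹ * B).eval x * y ^ m + (C c⁻¹ * A).eval x = 0 := by
    simp only [eval_mul, eval_C]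
    have : c * (y ^ 8 + c⁻¹ * B.eval x * y ^ m + c⁻¹ * A.eval x) = 0 := by
      field_simp
      linear_combination h1
    exact (mul_eq_zero.1 this).resolve_left hc
  have e2 : 8 * y ^ 7 + m * (C c⁻¹ * B).eval x * y ^ (m - 1) = 0 := by
    simp only [eval_mul, eval_C]
    have : c * (8 * y ^ 7 + m * (c⁻¹ * B.eval x) * y ^ (m - 1)) = 0 := by
      field_simp
      linear_combination h2
    exact (mul_eq_zero.1 this).resolve_left hc
  obtain ⟨p1, p2, p3, p4⟩ := crit_pos m hm hm7 _ _ y hy e1 e2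
  refine ⟨p1, p2, p3, p4, ?_⟩
  intro h0
  have hw := W_eval m hm (C c⁻¹ * A) (C c⁻¹ * B) x y e1 e2
  rw [h0, mul_zero] at hw
  have hm0 : (m : ℝ) ≠ 0 := by
    have : m ≠ 0 := by omega
    exact_mod_cast this
  have hm7' : (m : ℝ) ≤ 7 := by exact_mod_cast hm7
  have h8 : (8 - m : ℝ) ≠ 0 := by linarith
  have hd : (derivative (C c⁻¹ * B)).eval x * y ^ m + (derivative (C c⁻¹ * A)).eval x =
      c⁻¹ * (A.derivative.eval x + B.derivative.eval x * y ^ m) := by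
    simp only [derivative_C_mul, eval_mul, eval_C]
    ring
  rw [hd] at hw
  exact (mul_ne_zero hm0 (mul_ne_zero (mul_ne_zero h8 p2) (mul_ne_zero (inv_ne_zero hc) hR))) hw.symm

open Polynomial in
lemma T_of (N : ℕ) (Cr : ℝ → ℝ → Prop)
    (key : ∀ S : Finset ℝ, (∀ x ∈ S, ∃ y, y ≠ 0 ∧ Cr x y) → S.card ≤ N) :
    ∃ T : Finset ℝ, T.card ≤ N ∧ ∀ x y, y ≠ 0 → Cr x y → x ∈ T := by
  have hfin : {x : ℝ | ∃ y, y ≠ 0 ∧ Cr x y}.Finite := by
    by_contra hinf
    obtain ⟨t, ht, hc⟩ := Set.Infinite.exists_subset_card_eq hinf (N + 1)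
    have := key t (fun x hx => ht hx)
    omega
  refine ⟨hfin.toFinset, key _ (fun x hx => ?_), fun x y hy h => ?_⟩
  · exact (Set.Finite.mem_toFinset hfin).1 hx
  · exact (Set.Finite.mem_toFinset hfin).2 ⟨y, hy, h⟩

open Polynomial in
theorem T_odd (m : ℕ) (hm : 1 ≤ m) (hm7 : m ≤ 7) (A B : ℝ[X]) (c : ℝ) (hc : c ≠ 0)
    (hA : A.natDegree ≤ 8) (hB : B.natDegree ≤ 8 - m) (hR : Rg m A B c) :
    ∃ T : Finset ℝ, T.card ≤ 23 - 2 * m ∧ ∀ x y, y ≠ 0 → Cri m A B c x y → x ∈ T := by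
  apply T_of
  intro S hS
  rcases S.eq_empty_or_nonempty with h0 | ⟨x0, hx0⟩
  · rw [h0]; simp
  obtain ⟨y0, hy0, hc0⟩ := hS x0 hx0
  have h := cri m hm hm7 A B c x0 y0 hc hy0 hc0 (hR _ _ hc0)
  have hW : W m (C c⁻¹ * A) (C c⁻¹ * B) ≠ 0 := by
    intro h1
    apply h.2.2.2.2
    rw [h1]
    simp
  refine cnt_odd m hm hm7 _ _ ((natDegree_C_mul_le _ _).trans hA) ((natDegree_C_mul_le _ _).trans hB)
    hW S (fun x hx => ?_)
  obtain ⟨y, hy, hcr⟩ := hS x hx
  have h' := cri m hm hm7 A B c x y hc hy hcr (hR _ _ hcr)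
  exact ⟨h'.1, h'.2.1, h'.2.2.2.1⟩

open Polynomial in
theorem T_even (m : ℕ) (hm : 1 ≤ m) (hm7 : m ≤ 7) (he : Even m) (A B : ℝ[X]) (c : ℝ) (hc : c ≠ 0)
    (hA : A.natDegree ≤ 8) (hB : B.natDegree ≤ 8 - m) (hR : Rg m A B c) :
    ∃ T : Finset ℝ, T.card ≤ (38 - 3 * m) / 2 ∧ ∀ x y, y ≠ 0 → Cri m A B c x y → x ∈ T := by
  apply T_of
  intro S hS
  rcases S.eq_empty_or_nonempty with h0 | ⟨x0, hx0⟩
  · rw [h0]; simp
  obtain ⟨y0, hy0, hc0⟩ := hS x0 hx0
  have h := cri m hm hm7 A B c x0 y0 hc hy0 hc0 (hR _ _ hc0)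
  have hW : W m (C c⁻¹ * A) (C c⁻¹ * B) ≠ 0 := by
    intro h1
    apply h.2.2.2.2
    rw [h1]
    simp
  have := cnt_even m hm hm7 _ _ ((natDegree_C_mul_le _ _).trans hA)
    ((natDegree_C_mul_le _ _).trans hB) hW S (fun x hx => by
      obtain ⟨y, hy, hcr⟩ := hS x hx
      have h' := cri m hm hm7 A B c x y hc hy hcr (hR _ _ hcr)
      exact ⟨h'.1, h'.2.2.1 he, h'.2.2.2.1⟩)
  omega

open Polynomial in
/-- If every vertical line has a real point there is no critical point with `y ≠ 0`. -/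
theorem nocrit (m : ℕ) (hm : 1 ≤ m) (hm7 : m ≤ 7) (A B : ℝ[X]) (c : ℝ) (hc : c ≠ 0)
    (hR : Rg m A B c) (hall : ∀ x, ∃ y, A.eval x + B.eval x * y ^ m + c * y ^ 8 = 0) (x y : ℝ)
    (hy : y ≠ 0) : ¬ Cri m A B c x y := by
  intro h
  have h' := cri m hm hm7 A B c x y hc hy h (hR _ _ h)
  obtain ⟨x', hx'⟩ := gap m hm hm7 (C c⁻¹ * A) (C c⁻¹ * B) x h'.1 h'.2.1 h'.2.2.2.1 h'.2.2.2.2
  obtain ⟨t, ht⟩ := hall x'
  apply hx' t
  simp only [eval_mul, eval_C]
  have : c * (t ^ 8 + c⁻¹ * B.eval x' * t ^ m + c⁻¹ * A.eval x') = 0 := by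
    field_simp
    linear_combination ht
  exact (mul_eq_zero.1 this).resolve_left hc

/-- the count (adapted from helper69) -/
theorem core (m : ℕ) (hm : 1 ≤ m) (hm7 : m ≤ 7) (e : Bool) (S : Finset (Fin 3)) (D J0 : ℕ)
    (hS : ∀ y, y ≠ 0 → sg e y ∈ S) (A B : Polynomial ℝ) (c : ℝ) (hc : c ≠ 0)
    (hAd : A.natDegree ≤ 8)
    (hT : Rg m A B c → ∃ T : Finset ℝ, T.card ≤ D ∧ ∀ x y, y ≠ 0 → Cri m A B c x y → x ∈ T)
    (hsame : ∀ x y y', y ≠ 0 → y' ≠ 0 →
      Cri m A B c x y → Cri m A B c x y' → sg e y = sg e y' → y = y')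
    (F : MvPolynomial (Fin 3) ℝ) (hF : F.IsHomogeneous 8) (hN : Nonsing F)
    (hG : ∀ x y, MvPolynomial.eval (emb (x, y)) F = A.eval x + B.eval x * y ^ m + c * y ^ 8)
    (k : ℕ) (C : Fin k → Set (Fin 3 → ℝ)) (hne : ∀ i, (C i).Nonempty)
    (hdis : ∀ i j, i ≠ j → Disjoint (C i) (C j)) (hun : (⋃ i, C i) = realCone F)
    (hsc : ∀ i, ∀ v ∈ C i, ∀ c : ℝ, c ≠ 0 → c • v ∈ C i)
    (hcl : ∀ i, ∃ K : Set (Fin 3 → ℝ), IsClosed K ∧ C i = K ∩ {v | v ≠ 0})
    (hJ0 : ∀ J : Finset (Fin k), (∀ i ∈ J, ∃ v ∈ C i, v 2 = 0) → J.card ≤ J0) :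
    k ≤ (8 + D * S.card) / 2 + J0 := by
  classical
  have hGc : Continuous fun p : ℝ × ℝ => MvPolynomial.eval (emb (p.1, p.2)) F := by
    have : (fun p : ℝ × ℝ => MvPolynomial.eval (emb (p.1, p.2)) F) =
        fun p : ℝ × ℝ => A.eval p.1 + B.eval p.1 * p.2 ^ m + c * p.2 ^ 8 := by
      funext p
      exact hG p.1 p.2
    rw [this]
    fun_prop
  have hx : ∀ x y, MvPolynomial.eval (emb (x, y)) (MvPolynomial.pderiv 0 F) =
      A.derivative.eval x + B.derivative.eval x * y ^ m := by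
    intro x y
    have h1 := dx F x y
    have h2 : HasDerivAt (fun t => MvPolynomial.eval (emb (t, y)) F)
        (A.derivative.eval x + B.derivative.eval x * y ^ m) x := by
      have h3 := ((A.hasDerivAt x).add ((B.hasDerivAt x).mul_const (y ^ m))).add_const (c * y ^ 8)
      refine h3.congr_of_eventuallyEq (Filter.Eventually.of_forall fun t => ?_)
      simp only [Pi.add_apply]
      exact hG t y
    exact h1.unique h2
  have hy : ∀ x y, MvPolynomial.eval (emb (x, y)) (MvPolynomial.pderiv 1 F) =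
      m * B.eval x * y ^ (m - 1) + 8 * c * y ^ 7 := by
    intro x y
    have h1 := dy F x y
    have h2 : HasDerivAt (fun t => MvPolynomial.eval (emb (x, t)) F)
        (B.eval x * (m * y ^ (m - 1)) + c * ((8 : ℕ) * y ^ 7)) y := by
      have h3 := (((hasDerivAt_pow m y).const_mul (B.eval x)).const_add (A.eval x)).add
        ((hasDerivAt_pow 8 y).const_mul c)
      refine h3.congr_of_eventuallyEq (Filter.Eventually.of_forall fun t => ?_)
      simp only [Pi.add_apply]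
      exact hG x t
    rw [h1.unique h2]
    push_cast
    ring
  have hCr : ∀ x y, Cri m A B c x y ↔ MvPolynomial.eval (emb (x, y)) F = 0 ∧
      MvPolynomial.eval (emb (x, y)) (MvPolynomial.pderiv 1 F) = 0 := by
    intro x y
    rw [hG, hy]
    exact Iff.rfl
  have hRg : Rg m A B c := by
    intro x y h h1
    obtain ⟨h2, h4⟩ := (hCr x y).1 h
    exact reg hF hN x y h2 ⟨by rw [hx]; exact h1, h4⟩
  have hA0 : ∀ x, Cri m A B c x 0 → x ∈ A.roots.toFinset := by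
    intro x h
    have hAne : A ≠ 0 := by
      intro h0
      apply hRg x 0 h
      rw [h0, Polynomial.derivative_zero, Polynomial.eval_zero, zero_pow (by omega)]
      ring
    rw [Multiset.mem_toFinset, Polynomial.mem_roots hAne, Polynomial.IsRoot.def]
    have h1 := h.1
    rw [zero_pow (by omega), zero_pow (by norm_num)] at h1
    linear_combination h1
  have hfin : ∀ x, {y | MvPolynomial.eval (emb (x, y)) F = 0}.Finite := by
    intro x
    obtain ⟨f, hf⟩ : ∃ f : Polynomial ℝ, f = Polynomial.C (A.eval x) +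
      Polynomial.C (B.eval x) * Polynomial.X ^ m + Polynomial.C c * Polynomial.X ^ 8 := ⟨_, rfl⟩
    have hf0 : f ≠ 0 := by
      intro h
      have h1 : f.coeff 8 = 0 := by rw [h]; simp
      rw [hf] at h1
      simp only [Polynomial.coeff_add, Polynomial.coeff_C_mul, Polynomial.coeff_X_pow,
        Polynomial.coeff_C] at h1
      rw [if_neg (by norm_num), if_neg (by omega)] at h1
      simp at h1
      exact hc h1
    refine (f.roots.toFinset.finite_toSet).subset fun y hy => ?_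
    rw [Finset.mem_coe, Multiset.mem_toFinset, Polynomial.mem_roots hf0, Polynomial.IsRoot.def, hf]
    simp only [Polynomial.eval_add, Polynomial.eval_mul, Polynomial.eval_C, Polynomial.eval_pow,
      Polynomial.eval_X]
    rw [← hG]
    exact hy
  -- the pieces at infinity
  obtain ⟨J, hJ⟩ : ∃ J : Finset (Fin k), ∀ i, i ∈ J ↔ ∃ v ∈ C i, v 2 = 0 :=
    ⟨Finset.univ.filter fun i => ∃ v ∈ C i, v 2 = 0, fun i => by simp⟩
  have hJc : J.card ≤ J0 := hJ0 J (fun i hi => (hJ i).1 hi)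
  -- the compact pieces
  have hK := fun i : {i : Fin k // i ∉ J} => cpt hne hdis hun hsc hcl i.1 (fun v hvi h =>
    i.2 ((hJ i.1).2 ⟨v, hvi, h⟩))
  obtain ⟨T, hTc, hTm⟩ := hT hRg
  have hcount := Pool.Agent.L7h69.TO.count (fun i : {i : Fin k // i ∉ J} => emb ⁻¹' (C i.1))
    (fun i j hij => (hdis i.1 j.1 (fun h => hij (Subtype.ext h))).preimage emb) (Cri m A B c)
    (fun i => by
      obtain ⟨h1, h2, h3, h4⟩ := hK i
      obtain ⟨p, hp, q, hq, hpq, hp1, hq1⟩ := two_crit (fun x y => MvPolynomial.eval (emb (x, y)) F)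
        (fun x y => MvPolynomial.eval (emb (x, y)) (MvPolynomial.pderiv 0 F))
        (fun x y => MvPolynomial.eval (emb (x, y)) (MvPolynomial.pderiv 1 F)) hGc (dx F) (dy F)
        (fun x y h => reg hF hN x y h) hfin (emb ⁻¹' (C i.1)) h1 h2 h3 h4
      exact ⟨p, hp, q, hq, hpq, (hCr p.1 p.2).2 ⟨h3 p hp, hp1⟩, (hCr q.1 q.2).2 ⟨h3 q hq, hq1⟩⟩)
    e hsame A.roots.toFinset T hA0 hTm S hS
  have hAc : A.roots.toFinset.card ≤ 8 :=
    (Multiset.toFinset_card_le _).trans ((Polynomial.card_roots' A).trans hAd)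
  have hcard : k = J.card + Fintype.card {i : Fin k // i ∉ J} := by
    rw [Fintype.card_subtype_compl, Fintype.card_fin, Fintype.card_coe]
    have : J.card ≤ k := by simpa using Finset.card_le_univ J
    omega
  have hTS : T.card * S.card ≤ D * S.card := Nat.mul_le_mul_right _ hTc
  omega

end Pool.Agent.L7h78.TO
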