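import Pool.Agent.L7h78.TO.Core

set_option autoImplicit false

/-!
# Trinomial octics: the line at infinity, and the theorem for given `m`
-/

namespace Pool.Agent.L7h78.TO

open Pool.Agent.L7h17.OC Pool.Agent.L7h69.TO

/-- at most `S.card + 2` pieces meet the line `z = 0` (from helper69) -/
theorem inf_bound (m : ℕ) (hm : 1 ≤ m) (hm7 : m ≤ 7) (e : Bool) (S : Finset (Fin 3))
    (hS : ∀ y, y ≠ 0 → sg e y ∈ S)
    (hsame' : ∀ (b c : ℝ), c ≠ 0 → ∀ y y', y ≠ 0 → y' ≠ 0 →
      m * b * y ^ (m - 1) + 8 * c * y ^ 7 = 0 → m * b * y' ^ (m - 1) + 8 * c * y' ^ 7 = 0 →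
      sg e y = sg e y' → y = y')
    (F : MvPolynomial (Fin 3) ℝ) (a b : ℕ → ℝ) (c : ℝ) (hc : c ≠ 0)
    (hv : ∀ v : Fin 3 → ℝ, MvPolynomial.eval v F =
      ∑ i ∈ Finset.range 9, a i * v 0 ^ i * v 2 ^ (8 - i) +
        (∑ i ∈ Finset.range (9 - m), b i * v 0 ^ i * v 2 ^ (8 - m - i)) * v 1 ^ m + c * v 1 ^ 8)
    (k : ℕ) (C : Fin k → Set (Fin 3 → ℝ))
    (hdis : ∀ i j, i ≠ j → Disjoint (C i) (C j)) (hun : (⋃ i, C i) = realCone F)
    (hsc : ∀ i, ∀ v ∈ C i, ∀ c : ℝ, c ≠ 0 → c • v ∈ C i)
    (J : Finset (Fin k)) (hJ : ∀ i ∈ J, ∃ v ∈ C i, v 2 = 0) : J.card ≤ S.card + 2 := by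
  classical
  have hroot := roots_tri m (S.card + 1) e S hS le_rfl (a 8) (b (8 - m)) c hc hm hm7
    (hsame' (b (8 - m)) c hc)
  refine le_trans ?_ hroot
  have hch : ∀ i : Fin k, ∃ v : Fin 3 → ℝ, i ∈ J → v ∈ C i ∧ v 2 = 0 := by
    intro i
    by_cases h : i ∈ J
    · obtain ⟨v, h1, h2⟩ := hJ i h
      exact ⟨v, fun _ => ⟨h1, h2⟩⟩
    · exact ⟨0, fun h' => absurd h' h⟩
  choose w hw using hch
  have hev : ∀ v : Fin 3 → ℝ, v 2 = 0 → MvPolynomial.eval v F =
      a 8 * v 0 ^ 8 + b (8 - m) * v 0 ^ (8 - m) * v 1 ^ m + c * v 1 ^ 8 := by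
    intro v h2
    rw [hv, h2, Finset.sum_eq_single 8, Finset.sum_eq_single (8 - m)]
    · simp
    · intro i hi hne
      rw [Finset.mem_range] at hi
      rw [zero_pow (by omega), mul_zero]
    · intro h
      exact absurd (Finset.mem_range.2 (by omega)) h
    · intro i hi hne
      rw [Finset.mem_range] at hi
      rw [zero_pow (by omega), mul_zero]
    · intro h
      exact absurd (Finset.mem_range.2 (by omega)) h
  have hz : ∀ i ∈ J, MvPolynomial.eval (w i) F = 0 ∧ w i ≠ 0 := by
    intro i hi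
    have : w i ∈ realCone F := by
      rw [← hun]
      exact Set.mem_iUnion.2 ⟨i, (hw i hi).1⟩
    exact ⟨this.2, this.1⟩
  have hw0 : ∀ i ∈ J, w i 0 ≠ 0 := by
    intro i hi h0
    have h1 := (hz i hi).1
    rw [hev _ (hw i hi).2, h0, zero_pow (by norm_num), zero_pow (by omega)] at h1
    have h2 : w i 1 ^ 8 = 0 := by
      have : c * w i 1 ^ 8 = 0 := by linear_combination h1
      rcases mul_eq_zero.1 this with h | h
      · exact absurd h hc
      · exact h
    have h3 : w i 1 = 0 := pow_eq_zero_iff (by norm_num) |>.1 h2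
    apply (hz i hi).2
    funext j
    fin_cases j
    · exact h0
    · exact h3
    · exact (hw i hi).2
  apply Finset.card_le_card_of_injOn (fun i => w i 1 / w i 0)
  · intro i hi
    have hi' : i ∈ J := hi
    have hne := hw0 i hi'
    rw [Finset.mem_coe, Multiset.mem_toFinset, Polynomial.mem_roots, Polynomial.IsRoot.def]
    · simp only [Polynomial.eval_add, Polynomial.eval_mul, Polynomial.eval_C, Polynomial.eval_pow,
        Polynomial.eval_X]
      have h1 := (hz i hi').1
      rw [hev _ (hw i hi').2] at h1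
      have h2 : w i 0 ^ 8 = w i 0 ^ (8 - m) * w i 0 ^ m := by
        rw [← pow_add]
        congr 1
        omega
      have h3 : a 8 + b (8 - m) * (w i 1 / w i 0) ^ m + c * (w i 1 / w i 0) ^ 8 =
          (a 8 * w i 0 ^ 8 + b (8 - m) * w i 0 ^ (8 - m) * w i 1 ^ m + c * w i 1 ^ 8) /
            w i 0 ^ 8 := by
        have e1 : b (8 - m) * (w i 1 / w i 0) ^ m =
            b (8 - m) * w i 0 ^ (8 - m) * w i 1 ^ m / w i 0 ^ 8 := by
          rw [h2, div_pow]
          field_simp
        rw [e1, div_pow]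
        field_simp
      rw [h3, h1, zero_div]
    · intro h
      have h1 := congrArg (fun f => Polynomial.coeff f 8) h
      simp only [Polynomial.coeff_add, Polynomial.coeff_C_mul, Polynomial.coeff_X_pow,
        Polynomial.coeff_C, Polynomial.coeff_zero] at h1
      rw [if_neg (by norm_num), if_neg (by omega)] at h1
      simp at h1
      exact hc h1
  · intro i hi j hj h
    have hi' : i ∈ J := hi
    have hj' : j ∈ J := hj
    have hni := hw0 i hi'
    have hnj := hw0 j hj'
    by_contra hij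
    have h1 : (w j 0 / w i 0) • w i = w j := by
      have h' : w i 1 / w i 0 = w j 1 / w j 0 := h
      funext l
      fin_cases l
      · show w j 0 / w i 0 * w i 0 = w j 0
        field_simp
      · show w j 0 / w i 0 * w i 1 = w j 1
        have : w j 0 / w i 0 * w i 1 = w j 0 * (w i 1 / w i 0) := by field_simp
        rw [this, h']
        field_simp
      · show w j 0 / w i 0 * w i 2 = w j 2
        rw [(hw i hi').2, (hw j hj').2, mul_zero]
    have h2 := hsc i (w i) (hw i hi').1 (w j 0 / w i 0) (div_ne_zero hnj hni)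
    rw [h1] at h2
    exact Set.disjoint_left.1 (hdis i j hij) h2 (hw j hj').1

lemma hsame_gen (m : ℕ) (hm : 1 ≤ m) (hm7 : m ≤ 7) (e : Bool) (he : Even m → e = true)
    (A B : Polynomial ℝ) (c : ℝ) (hc : c ≠ 0) (x y y' : ℝ) (hy : y ≠ 0) (hy' : y' ≠ 0)
    (h : Cri m A B c x y) (h' : Cri m A B c x y') (hs : sg e y = sg e y') : y = y' := by
  have norm : ∀ t : ℝ, Cri m A B c x t → t ^ 8 + (c⁻¹ * B.eval x) * t ^ m + c⁻¹ * A.eval x = 0 ∧
      8 * t ^ 7 + m * (c⁻¹ * B.eval x) * t ^ (m - 1) = 0 := by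
    rintro t ⟨h1, h2⟩
    constructor
    · have : c * (t ^ 8 + c⁻¹ * B.eval x * t ^ m + c⁻¹ * A.eval x) = 0 := by
        field_simp
        linear_combination h1
      exact (mul_eq_zero.1 this).resolve_left hc
    · have : c * (8 * t ^ 7 + m * (c⁻¹ * B.eval x) * t ^ (m - 1)) = 0 := by
        field_simp
        linear_combination h2
      exact (mul_eq_zero.1 this).resolve_left hc
  obtain ⟨a1, a2⟩ := norm y h
  obtain ⟨b1, b2⟩ := norm y' h'
  rcases crit_unique m hm hm7 _ _ y y' hy hy' a1 a2 b1 b2 with h3 | ⟨h3, h4⟩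
  · exact h3.symm
  · have he' := he h4
    subst he'
    exact absurd h3 (sg_true hs hy)

lemma hsame_gen' (m : ℕ) (hm : 1 ≤ m) (hm7 : m ≤ 7) (e : Bool) (he : Even m → e = true)
    (b c : ℝ) (hc : c ≠ 0) (y y' : ℝ) (hy : y ≠ 0) (hy' : y' ≠ 0)
    (h : m * b * y ^ (m - 1) + 8 * c * y ^ 7 = 0) (h' : m * b * y' ^ (m - 1) + 8 * c * y' ^ 7 = 0)
    (hs : sg e y = sg e y') : y = y' := by
  have norm : ∀ t : ℝ, t ≠ 0 → m * b * t ^ (m - 1) + 8 * c * t ^ 7 = 0 →
      t ^ (8 - m) = -(m * b) / (8 * c) := by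
    intro t ht h1
    have e7 : t ^ 7 = t ^ (m - 1) * t ^ (8 - m) := by
      rw [← pow_add]
      congr 1
      omega
    rw [e7] at h1
    have h2 : t ^ (m - 1) * (m * b + 8 * c * t ^ (8 - m)) = 0 := by linear_combination h1
    have h3 := (mul_eq_zero.1 h2).resolve_left (pow_ne_zero _ ht)
    rw [eq_div_iff (by simpa using hc)]
    linear_combination h3
  have heq : y ^ (8 - m) = y' ^ (8 - m) := (norm y hy h).trans (norm y' hy' h').symm
  rcases Nat.even_or_odd m with hev | hod
  · have he' := he hev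
    subst he'
    have hev8 : Even (8 - m) := by
      rw [Nat.even_sub (by omega)]
      exact ⟨fun _ => hev, fun _ => by decide⟩
    have habs : |y| = |y'| := by
      have : |y| ^ (8 - m) = |y'| ^ (8 - m) := by
        rw [hev8.pow_abs, hev8.pow_abs, heq]
      exact (pow_left_inj₀ (abs_nonneg _) (abs_nonneg _) (by omega)).1 this
    rcases abs_eq_abs.1 habs with h1 | h1
    · exact h1
    · exact absurd (by rw [h1, neg_neg]) (sg_true hs hy)
  · have hod8 : Odd (8 - m) := by
      rw [← Nat.not_even_iff_odd, Nat.even_sub (by omega)]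
      rw [← Nat.not_even_iff_odd] at hod
      intro h1
      exact hod (h1.1 (by decide))
    exact hod8.strictMono_pow.injective heq

/-- the theorem for given `m` -/
theorem main (m : ℕ) (hm : 1 ≤ m) (hm7 : m ≤ 7) (e : Bool) (he : Even m → e = true)
    (S : Finset (Fin 3)) (D : ℕ) (hS : ∀ y, y ≠ 0 → sg e y ∈ S)
    (hT : ∀ (A B : Polynomial ℝ) (c : ℝ), c ≠ 0 → A.natDegree ≤ 8 → B.natDegree ≤ 8 - m →
      Rg m A B c → ∃ T : Finset ℝ, T.card ≤ D ∧ ∀ x y, y ≠ 0 → Cri m A B c x y → x ∈ T)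
    (F : MvPolynomial (Fin 3) ℝ) (hF : F.IsHomogeneous 8) (hN : Nonsing F)
    (h3 : ThreeTerms m F) (k : ℕ) (hk : SplitsInto k F) :
    k ≤ max ((8 + D * S.card) / 2) (S.card + 6) := by
  classical
  obtain ⟨a, b, c, hc, hv⟩ := h3
  have hs1 := fun (A B : Polynomial ℝ) => hsame_gen m hm hm7 e he A B c hc
  by_cases hgap : ∃ u0 u2 : ℝ, ¬ (u0 = 0 ∧ u2 = 0) ∧ ∀ y, MvPolynomial.eval ![u0, y, u2] F ≠ 0
  · -- a line through `(0, 1, 0)` without real points
    obtain ⟨u0, u2, hu, hno⟩ := hgap
    have hdet : u0 * u0 + u2 * u2 ≠ 0 := by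
      intro h
      exact hu (mul_self_add_mul_self_eq_zero.1 h)
    obtain ⟨R, hR⟩ : ∃ R : Matrix (Fin 3) (Fin 3) ℝ, R = !![u0, 0, -u2; 0, 1, 0; u2, 0, u0] :=
      ⟨_, rfl⟩
    have hRu : IsUnit R := by
      rw [Matrix.isUnit_iff_isUnit_det, hR, Matrix.det_fin_three]
      simp only [Matrix.of_apply, Matrix.cons_val', Matrix.cons_val_zero, Matrix.cons_val_one,
        Matrix.cons_val, Matrix.empty_val', Matrix.cons_val_fin_one]
      rw [isUnit_iff_ne_zero]
      intro h
      apply hdet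
      linear_combination h
    have hRv : ∀ v : Fin 3 → ℝ, R.mulVec v = ![u0 * v 0 - u2 * v 2, v 1, u2 * v 0 + u0 * v 2] := by
      intro v
      rw [hR]
      funext j
      fin_cases j
      · simp [Matrix.mulVec, dotProduct, Fin.sum_univ_three]
        ring
      · simp [Matrix.mulVec, dotProduct, Fin.sum_univ_three]
      · simp [Matrix.mulVec, dotProduct, Fin.sum_univ_three]
    obtain ⟨t1, t2, t3, t4⟩ := Pool.Agent.L7h77.OC.s_TRANS F R hRu
    obtain ⟨G, hG⟩ : ∃ G, G = change R F := ⟨_, rfl⟩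
    rw [← hG] at t1 t2 t3 t4
    obtain ⟨A2, hA2⟩ : ∃ A2 : Polynomial ℝ, A2 = ∑ i ∈ Finset.range 9, Polynomial.C (a i) *
      (Polynomial.C u0 * Polynomial.X - Polynomial.C u2) ^ i *
        (Polynomial.C u2 * Polynomial.X + Polynomial.C u0) ^ (8 - i) := ⟨_, rfl⟩
    obtain ⟨B2, hB2⟩ : ∃ B2 : Polynomial ℝ, B2 = ∑ i ∈ Finset.range (9 - m), Polynomial.C (b i) *
      (Polynomial.C u0 * Polynomial.X - Polynomial.C u2) ^ i *
        (Polynomial.C u2 * Polynomial.X + Polynomial.C u0) ^ (8 - m - i) := ⟨_, rfl⟩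
    have l1 : (Polynomial.C u0 * Polynomial.X - Polynomial.C u2 : Polynomial ℝ).natDegree ≤ 1 := by
      refine (Polynomial.natDegree_sub_le _ _).trans (max_le ((Polynomial.natDegree_C_mul_le _ _).trans Polynomial.natDegree_X_le) ?_)
      rw [Polynomial.natDegree_C]
      exact Nat.zero_le _
    have l2 : (Polynomial.C u2 * Polynomial.X + Polynomial.C u0 : Polynomial ℝ).natDegree ≤ 1 := by
      refine (Polynomial.natDegree_add_le _ _).trans (max_le ((Polynomial.natDegree_C_mul_le _ _).trans Polynomial.natDegree_X_le) ?_)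
      rw [Polynomial.natDegree_C]
      exact Nat.zero_le _
    have hdeg : ∀ (s : ℝ) (i n : ℕ), i ≤ n → (Polynomial.C s *
        (Polynomial.C u0 * Polynomial.X - Polynomial.C u2) ^ i *
        (Polynomial.C u2 * Polynomial.X + Polynomial.C u0) ^ (n - i) : Polynomial ℝ).natDegree ≤ n := by
      intro s i n hin
      have d1 : ((Polynomial.C u0 * Polynomial.X - Polynomial.C u2 : Polynomial ℝ) ^ i).natDegree ≤
          i * 1 := Polynomial.natDegree_pow_le_of_le i l1
      have d2 : ((Polynomial.C u2 * Polynomial.X + Polynomial.C u0 : Polynomial ℝ) ^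
          (n - i)).natDegree ≤ (n - i) * 1 := Polynomial.natDegree_pow_le_of_le (n - i) l2
      refine (Polynomial.natDegree_mul_le_of_le ((Polynomial.natDegree_C_mul_le _ _).trans d1)
        d2).trans ?_
      omega
    have hA2d : A2.natDegree ≤ 8 := by
      rw [hA2]
      refine Polynomial.natDegree_sum_le_of_forall_le _ _ fun i hi => ?_
      exact hdeg _ _ _ (by have := Finset.mem_range.1 hi; omega)
    have hB2d : B2.natDegree ≤ 8 - m := by
      rw [hB2]
      refine Polynomial.natDegree_sum_le_of_forall_le _ _ fun i hi => ?_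
      exact hdeg _ _ _ (by have := Finset.mem_range.1 hi; omega)
    have hGe : ∀ x y, MvPolynomial.eval (emb (x, y)) G = A2.eval x + B2.eval x * y ^ m + c * y ^ 8 := by
      intro x y
      rw [t2, hRv, hv, hA2, hB2, Polynomial.eval_finsetSum, Polynomial.eval_finsetSum]
      simp [emb]
    obtain ⟨C, hne, hdis, hun, hsc, hcl⟩ := t4 k hk
    have h := core m hm hm7 e S D 0 hS A2 B2 c hc hA2d (hT A2 B2 c hc hA2d hB2d) (hs1 A2 B2) G
      (t1 hF) (t3 hN) hGe k C hne hdis hun hsc hcl (fun J hJ => by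
        rw [Nat.le_zero, Finset.card_eq_zero]
        refine Finset.eq_empty_of_forall_notMem fun i hi => ?_
        obtain ⟨v, hvC, hv2⟩ := hJ i hi
        have hcone : ∀ w ∈ C i, w ≠ 0 ∧ MvPolynomial.eval w G = 0 := by
          intro w hw
          have : w ∈ realCone G := by
            rw [← hun]
            exact Set.mem_iUnion.2 ⟨i, hw⟩
          exact this
        by_cases hv0 : v 0 = 0
        · obtain ⟨h1, h2⟩ := hcone v hvC
          rw [t2, hRv, hv0, hv2, hv] at h2
          have h5 : c * v 1 ^ 8 = 0 := by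
            have e1 : ∑ i ∈ Finset.range 9, a i * (![u0 * 0 - u2 * 0, v 1, u2 * 0 + u0 * 0] : Fin 3 → ℝ) 0 ^ i *
                (![u0 * 0 - u2 * 0, v 1, u2 * 0 + u0 * 0] : Fin 3 → ℝ) 2 ^ (8 - i) = 0 := by
              apply Finset.sum_eq_zero
              intro i hi
              have := Finset.mem_range.1 hi
              rcases Nat.eq_zero_or_pos i with h0 | h0
              · subst h0
                simp
              · simp [h0.ne']
            have e2 : ∑ i ∈ Finset.range (9 - m), b i * (![u0 * 0 - u2 * 0, v 1, u2 * 0 + u0 * 0] : Fin 3 → ℝ) 0 ^ i *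
                (![u0 * 0 - u2 * 0, v 1, u2 * 0 + u0 * 0] : Fin 3 → ℝ) 2 ^ (8 - m - i) = 0 := by
              apply Finset.sum_eq_zero
              intro i hi
              have := Finset.mem_range.1 hi
              rcases Nat.eq_zero_or_pos i with h0 | h0
              · subst h0
                have : 8 - m - 0 ≠ 0 := by omega
                simp
                right
                omega
              · simp [h0.ne']
            rw [e1, e2] at h2
            simpa using h2
          have h6 : v 1 = 0 := by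
            have := (mul_eq_zero.1 h5).resolve_left hc
            exact pow_eq_zero_iff (by norm_num) |>.1 this
          apply h1
          funext j
          fin_cases j
          · exact hv0
          · exact h6
          · exact hv2
        · have hw := hsc i v hvC (v 0)⁻¹ (inv_ne_zero hv0)
          obtain ⟨_, h2⟩ := hcone _ hw
          rw [t2, hRv] at h2
          apply hno ((v 0)⁻¹ * v 1)
          have e0 : u0 * ((v 0)⁻¹ • v) 0 - u2 * ((v 0)⁻¹ • v) 2 = u0 := by
            show u0 * ((v 0)⁻¹ * v 0) - u2 * ((v 0)⁻¹ * v 2) = u0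
            rw [hv2, inv_mul_cancel₀ hv0]
            ring
          have e1 : ((v 0)⁻¹ • v) 1 = (v 0)⁻¹ * v 1 := rfl
          have e2 : u2 * ((v 0)⁻¹ • v) 0 + u0 * ((v 0)⁻¹ • v) 2 = u2 := by
            show u2 * ((v 0)⁻¹ * v 0) + u0 * ((v 0)⁻¹ * v 2) = u2
            rw [hv2, inv_mul_cancel₀ hv0]
            ring
          rw [e0, e1, e2] at h2
          exact h2)
    exact le_max_of_le_left (by omega)
  · -- every line through `(0, 1, 0)` has a real point
    push Not at hgap
    obtain ⟨C, hne, hdis, hun, hsc, hcl⟩ := hk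
    obtain ⟨A, hA⟩ : ∃ A, A = pl 9 a := ⟨_, rfl⟩
    obtain ⟨B, hB⟩ : ∃ B, B = pl (9 - m) b := ⟨_, rfl⟩
    have hAd : A.natDegree ≤ 8 := by rw [hA]; exact pl_deg 8 a
    have hG : ∀ x y, MvPolynomial.eval (emb (x, y)) F = A.eval x + B.eval x * y ^ m + c * y ^ 8 := by
      intro x y
      rw [hv, hA, hB, pl_eval, pl_eval]
      simp [emb]
    have h := core m hm hm7 e S 0 (S.card + 2) hS A B c hc hAd (fun hR => by
        refine ⟨∅, by simp, fun x y hy h => ?_⟩
        refine absurd h (nocrit m hm hm7 A B c hc hR (fun x' => ?_) x y hy)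
        obtain ⟨t, ht⟩ := hgap x' 1 (by norm_num)
        refine ⟨t, ?_⟩
        rw [← hG]
        exact ht) (hs1 A B) F hF hN hG k C hne hdis hun hsc hcl
      (fun J hJ => inf_bound m hm hm7 e S hS (hsame_gen' m hm hm7 e he) F a b c hc hv k C hdis hun
        hsc J hJ)
    exact le_max_of_le_right (by omega)

end Pool.Agent.L7h78.TO
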